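import Mathlib

set_option autoImplicit false

namespace Pool.Agent.W139.Box.H471

/-- the five colours at the vertex (v,i) of the product are distinct -/
def Good (r s t a : Fin 3 → Fin 5) : Prop := ∀ i : Fin 3, [r i, s i, t i, a (i+1), a (i+2)].Nodup

section
variable {V : Type} (π : Equiv.Perm V) (m : V → V) (cF cM a : V → Fin 3 → Fin 5)

/-- the edge `x y` exists and has colour `k` -/
def Cl (k : Fin 5) (x y : V × Fin 3) : Prop :=
  (y = (π x.1, x.2) ∧ k = cF x.1 x.2) ∨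
  (y = (π.symm x.1, x.2) ∧ k = cF (π.symm x.1) x.2) ∨
  (y = (m x.1, x.2) ∧ k = cM x.1 x.2) ∨
  (y = (x.1, x.2 + 2) ∧ k = a x.1 (x.2 + 1)) ∨
  (y = (x.1, x.2 + 1) ∧ k = a x.1 (x.2 + 2))

variable {π m cF cM a}

lemma Cl.symm' (hm : ∀ v, m (m v) = v) (hcM : ∀ v, cM (m v) = cM v) {k : Fin 5} {x y : V × Fin 3}
    (h : Cl π m cF cM a k x y) : Cl π m cF cM a k y x := by
  obtain ⟨v, i⟩ := x
  unfold Cl at h ⊢
  rcases h with ⟨rfl, rfl⟩ | ⟨rfl, rfl⟩ | ⟨rfl, rfl⟩ | ⟨rfl, rfl⟩ | ⟨rfl, rfl⟩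
  · right; left
    simp
  · left
    simp
  · right; right; left
    simp [hm, hcM]
  · right; right; right; right
    have h1 : i + 2 + 1 = i := by fin_cases i <;> rfl
    have h2 : i + 2 + 2 = i + 1 := by fin_cases i <;> rfl
    simp [h1, h2]
  · right; right; right; left
    have h1 : i + 1 + 2 = i := by fin_cases i <;> rfl
    have h2 : i + 1 + 1 = i + 2 := by fin_cases i <;> rfl
    simp [h1, h2]

end

theorem part3 {V : Type} [Fintype V] [DecidableEq V] (G : SimpleGraph V) [DecidableRel G.Adj]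
    (π : Equiv.Perm V) (m : V → V) (hm : ∀ v, m (m v) = v)
    (hadj : ∀ v w, G.Adj v w ↔ (w = π v ∨ w = π.symm v ∨ w = m v))
    (hne : ∀ v, π v ≠ π.symm v ∧ m v ≠ π v ∧ m v ≠ π.symm v)
    (cF cM a : V → Fin 3 → Fin 5) (hcM : ∀ v, cM (m v) = cM v)
    (hgood : ∀ v, Good (cF v) (cF (π.symm v)) (cM v) (a v)) :
    ∃ (k : ℕ) (M : Fin k → (SimpleGraph.boxProd G (⊤ : SimpleGraph (Fin 3))).Subgraph),
      (∀ i, (M i).IsPerfectMatching) ∧
      ∀ e ∈ (SimpleGraph.boxProd G (⊤ : SimpleGraph (Fin 3))).edgeSet, ∃! i, e ∈ (M i).edgeSet := by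
  have hi1 : ∀ i : Fin 3, i + 1 ≠ i := by decide
  have hi2 : ∀ i : Fin 3, i + 2 ≠ i := by decide
  have hi12 : ∀ i : Fin 3, i + 2 ≠ i + 1 := by decide
  have hij : ∀ i j : Fin 3, i ≠ j → j = i + 2 ∨ j = i + 1 := by decide
  have hsub : ∀ k x y, Cl π m cF cM a k x y →
      (SimpleGraph.boxProd G (⊤ : SimpleGraph (Fin 3))).Adj x y := by
    rintro k ⟨v, i⟩ y h
    rw [SimpleGraph.boxProd_adj]
    rcases h with ⟨rfl, -⟩ | ⟨rfl, -⟩ | ⟨rfl, -⟩ | ⟨rfl, -⟩ | ⟨rfl, -⟩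
    · left
      exact ⟨(hadj _ _).2 (Or.inl rfl), rfl⟩
    · left
      exact ⟨(hadj _ _).2 (Or.inr (Or.inl rfl)), rfl⟩
    · left
      exact ⟨(hadj _ _).2 (Or.inr (Or.inr rfl)), rfl⟩
    · right
      exact ⟨(hi2 i).symm, rfl⟩
    · right
      exact ⟨(hi1 i).symm, rfl⟩
  have hex : ∀ k x, ∃! y, Cl π m cF cM a k x y := by
    rintro k ⟨v, i⟩
    have hg := hgood v i
    have hmem : k ∈ [cF v i, cF (π.symm v) i, cM v i, a v (i + 1), a v (i + 2)] := by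
      by_contra hk
      have hnd : (k :: [cF v i, cF (π.symm v) i, cM v i, a v (i + 1), a v (i + 2)]).Nodup :=
        List.nodup_cons.2 ⟨hk, hg⟩
      have := hnd.length_le_card
      simp at this
    simp only [List.nodup_cons, List.mem_cons, List.not_mem_nil, or_false, not_or,
      not_false_eq_true, List.nodup_nil, and_true] at hg
    obtain ⟨⟨h12, h13, h14, h15⟩, ⟨h23, h24, h25⟩, ⟨h34, h35⟩, h45⟩ := hg
    simp only [List.mem_cons, List.not_mem_nil, or_false] at hmem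
    unfold Cl
    rcases hmem with rfl | rfl | rfl | rfl | rfl
    · refine ⟨(π v, i), Or.inl ⟨rfl, rfl⟩, ?_⟩
      rintro y (⟨h, -⟩ | ⟨-, h⟩ | ⟨-, h⟩ | ⟨-, h⟩ | ⟨-, h⟩)
      · exact h
      · exact absurd h h12
      · exact absurd h h13
      · exact absurd h h14
      · exact absurd h h15
    · refine ⟨(π.symm v, i), Or.inr (Or.inl ⟨rfl, rfl⟩), ?_⟩
      rintro y (⟨-, h⟩ | ⟨h, -⟩ | ⟨-, h⟩ | ⟨-, h⟩ | ⟨-, h⟩)
      · exact absurd h.symm h12
      · exact h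
      · exact absurd h h23
      · exact absurd h h24
      · exact absurd h h25
    · refine ⟨(m v, i), Or.inr (Or.inr (Or.inl ⟨rfl, rfl⟩)), ?_⟩
      rintro y (⟨-, h⟩ | ⟨-, h⟩ | ⟨h, -⟩ | ⟨-, h⟩ | ⟨-, h⟩)
      · exact absurd h.symm h13
      · exact absurd h.symm h23
      · exact h
      · exact absurd h h34
      · exact absurd h h35
    · refine ⟨(v, i + 2), Or.inr (Or.inr (Or.inr (Or.inl ⟨rfl, rfl⟩))), ?_⟩
      rintro y (⟨-, h⟩ | ⟨-, h⟩ | ⟨-, h⟩ | ⟨h, -⟩ | ⟨-, h⟩)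
      · exact absurd h.symm h14
      · exact absurd h.symm h24
      · exact absurd h.symm h34
      · exact h
      · exact absurd h h45
    · refine ⟨(v, i + 1), Or.inr (Or.inr (Or.inr (Or.inr ⟨rfl, rfl⟩))), ?_⟩
      rintro y (⟨-, h⟩ | ⟨-, h⟩ | ⟨-, h⟩ | ⟨-, h⟩ | ⟨h, -⟩)
      · exact absurd h.symm h15
      · exact absurd h.symm h25
      · exact absurd h.symm h35
      · exact absurd h.symm h45
      · exact h
  let M : Fin 5 → (SimpleGraph.boxProd G (⊤ : SimpleGraph (Fin 3))).Subgraph := fun k =>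
    { verts := Set.univ
      Adj := Cl π m cF cM a k
      adj_sub := fun {x y} h => hsub k x y h
      edge_vert := fun _ => Set.mem_univ _
      symm := ⟨fun _ _ h => Cl.symm' hm hcM h⟩ }
  refine ⟨5, M, fun k => ⟨fun x _ => hex k x, fun x => Set.mem_univ x⟩, ?_⟩
  intro e
  induction e using Sym2.ind with
  | _ x y =>
  intro he
  rw [SimpleGraph.mem_edgeSet] at he
  have hme : ∀ k, s(x, y) ∈ (M k).edgeSet ↔ Cl π m cF cM a k x y := fun k => Iff.rfl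
  simp only [hme]
  obtain ⟨v, i⟩ := x
  obtain ⟨w, j⟩ := y
  obtain ⟨n1, n2, n3⟩ := hne v
  rw [SimpleGraph.boxProd_adj] at he
  unfold Cl
  rcases he with ⟨he, hij'⟩ | ⟨he, hvw⟩
  · simp only at he hij'
    subst hij'
    rw [hadj] at he
    rcases he with rfl | rfl | rfl
    · refine ⟨cF v i, Or.inl ⟨rfl, rfl⟩, ?_⟩
      rintro k (⟨-, h⟩ | ⟨h, -⟩ | ⟨h, -⟩ | ⟨h, -⟩ | ⟨h, -⟩)
      · exact h
      · exact absurd (Prod.ext_iff.1 h).1 n1
      · exact absurd (Prod.ext_iff.1 h).1.symm n2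
      · exact absurd (Prod.ext_iff.1 h).2.symm (hi2 i)
      · exact absurd (Prod.ext_iff.1 h).2.symm (hi1 i)
    · refine ⟨cF (π.symm v) i, Or.inr (Or.inl ⟨rfl, rfl⟩), ?_⟩
      rintro k (⟨h, -⟩ | ⟨-, h⟩ | ⟨h, -⟩ | ⟨h, -⟩ | ⟨h, -⟩)
      · exact absurd (Prod.ext_iff.1 h).1.symm n1
      · exact h
      · exact absurd (Prod.ext_iff.1 h).1.symm n3
      · exact absurd (Prod.ext_iff.1 h).2.symm (hi2 i)
      · exact absurd (Prod.ext_iff.1 h).2.symm (hi1 i)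
    · refine ⟨cM v i, Or.inr (Or.inr (Or.inl ⟨rfl, rfl⟩)), ?_⟩
      rintro k (⟨h, -⟩ | ⟨h, -⟩ | ⟨-, h⟩ | ⟨h, -⟩ | ⟨h, -⟩)
      · exact absurd (Prod.ext_iff.1 h).1 n2
      · exact absurd (Prod.ext_iff.1 h).1 n3
      · exact h
      · exact absurd (Prod.ext_iff.1 h).2.symm (hi2 i)
      · exact absurd (Prod.ext_iff.1 h).2.symm (hi1 i)
  · simp only at he hvw
    subst hvw
    rw [SimpleGraph.top_adj] at he
    rcases hij i j he with rfl | rfl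
    · refine ⟨a v (i + 1), Or.inr (Or.inr (Or.inr (Or.inl ⟨rfl, rfl⟩))), ?_⟩
      rintro k (⟨h, -⟩ | ⟨h, -⟩ | ⟨h, -⟩ | ⟨-, h⟩ | ⟨h, -⟩)
      · exact absurd (Prod.ext_iff.1 h).2 (hi2 i)
      · exact absurd (Prod.ext_iff.1 h).2 (hi2 i)
      · exact absurd (Prod.ext_iff.1 h).2 (hi2 i)
      · exact h
      · exact absurd (Prod.ext_iff.1 h).2 (hi12 i)
    · refine ⟨a v (i + 2), Or.inr (Or.inr (Or.inr (Or.inr ⟨rfl, rfl⟩))), ?_⟩
      rintro k (⟨h, -⟩ | ⟨h, -⟩ | ⟨h, -⟩ | ⟨h, -⟩ | ⟨-, h⟩)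
      · exact absurd (Prod.ext_iff.1 h).2 (hi1 i)
      · exact absurd (Prod.ext_iff.1 h).2 (hi1 i)
      · exact absurd (Prod.ext_iff.1 h).2 (hi1 i)
      · exact absurd (Prod.ext_iff.1 h).2.symm (hi12 i)
      · exact h

end Pool.Agent.W139.Box.H471
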